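import Mathlib

/-!
MP_d81877_al, part D, step T2: the increasing cycle on a finite set of sites.
-/

namespace MP_d81877_alT2

open Finset

variable {ι : Type*} [LinearOrder ι]

/-- the sorted list of the elements of `C` -/
abbrev srt (C : Finset ι) : List ι := C.sort (fun a b => a ≤ b)

/-- the cycle on `C` which sends each element to the previous one -/
def cyc (C : Finset ι) : Equiv.Perm ι := ((srt C).formPerm)⁻¹

theorem formPerm_map (f : Equiv.Perm ι) :
    ∀ l : List ι, (l.map f).formPerm = f * l.formPerm * f⁻¹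
  | [] => by simp
  | [x] => by simp
  | x :: y :: l => by
    have h := formPerm_map f (y :: l)
    rw [List.map_cons] at h
    rw [List.map_cons, List.map_cons, List.formPerm_cons_cons, List.formPerm_cons_cons, h,
      Equiv.swap_apply_apply]
    group

/-- the sorted list around two adjacent elements -/
theorem srt_adj {C : Finset ι} {x y : ι} (hx : x ∈ C) (hy : y ∈ C) (hxy : x < y)
    (hadj : ∀ z ∈ C, ¬ (x < z ∧ z < y)) :
    ∃ l₁ l₂ : List ι, srt C = l₁ ++ x :: y :: l₂ := by
  have hx' : x ∈ srt C := (Finset.mem_sort _).2 hx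
  have hy' : y ∈ srt C := (Finset.mem_sort _).2 hy
  obtain ⟨l₁, t, ht⟩ := List.append_of_mem hx'
  have hs : (srt C).Pairwise (fun a b => a ≤ b) := Finset.pairwise_sort _ _
  have hn : (srt C).Nodup := Finset.sort_nodup _ _
  rw [ht] at hs hn hy'
  rw [List.pairwise_append] at hs
  rw [List.nodup_append] at hn
  obtain ⟨hs1, hs2, hs3⟩ := hs
  obtain ⟨hn1, hn2, hn3⟩ := hn
  rw [List.pairwise_cons] at hs2
  rw [List.nodup_cons] at hn2
  have hyt : y ∈ t := by
    rw [List.mem_append, List.mem_cons] at hy'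
    rcases hy' with h | h | h
    · exact absurd (hs3 y h x (by simp)) (not_le.2 hxy)
    · exact absurd h.symm hxy.ne
    · exact h
  cases t with
  | nil => simp at hyt
  | cons u t =>
    by_cases hu : u = y
    · subst hu
      exact ⟨l₁, t, ht⟩
    · exfalso
      have huC : u ∈ C := by
        rw [← Finset.mem_sort (fun a b : ι => a ≤ b)]
        change u ∈ srt C
        rw [ht]; simp
      have h1 : u ≤ y := by
        rw [List.pairwise_cons] at hs2
        rw [List.mem_cons] at hyt
        rcases hyt with h | h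
        · exact absurd h.symm hu
        · exact hs2.2.1 y h
      have h2 : x ≤ u := hs2.1 u (by simp)
      have h3 : x ≠ u := by
        rintro rfl
        exact hn2.1 (by simp)
      exact hadj u huC ⟨lt_of_le_of_ne h2 h3, lt_of_le_of_ne h1 hu⟩

/-- removing elements of a sorted list -/
theorem srt_sublist {C D : Finset ι} {l : List ι} (hl : l.Sublist (srt C))
    (hD : l.toFinset = D) : srt D = l := by
  subst hD
  have hn : l.Nodup := (Finset.sort_nodup _ _).sublist hl
  have hs : l.Pairwise (fun a b => a ≤ b) :=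
    List.Pairwise.sublist hl (Finset.pairwise_sort C (fun a b : ι => a ≤ b))
  exact (List.toFinset_sort (fun a b : ι => a ≤ b) hn).2 hs

theorem mem_srt {C : Finset ι} {x : ι} : x ∈ srt C ↔ x ∈ C := Finset.mem_sort _

theorem srt_nodup (C : Finset ι) : (srt C).Nodup := Finset.sort_nodup _ _

/-- the inverse cycle of a list -/
def Lf (l : List ι) : Equiv.Perm ι := (l.formPerm)⁻¹

theorem cyc_eq (C : Finset ι) : cyc C = Lf (srt C) := rfl

theorem Lf_append_comm {l₁ l₂ : List ι} (h : (l₁ ++ l₂).Nodup) : Lf (l₁ ++ l₂) = Lf (l₂ ++ l₁) := by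
  unfold Lf
  rw [List.formPerm_eq_of_isRotated h (List.isRotated_append)]

theorem Lf_apply_mem {l : List ι} {S : Finset ι} (hl : ∀ z ∈ l, z ∈ S) :
    ∀ z ∈ S, Lf l z ∈ S := by
  intro z hz
  by_cases h : Lf l z ∈ l
  · exact hl _ h
  · have h1 := List.formPerm_apply_of_notMem h
    have h2 : l.formPerm (Lf l z) = z := by
      unfold Lf
      simp
    rw [h2] at h1
    rw [← h1]
    exact hz

theorem Lf_fix {l : List ι} {z : ι} (hz : z ∉ l) : Lf l z = z := by
  unfold Lf
  rw [Equiv.Perm.inv_eq_iff_eq]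
  exact (List.formPerm_apply_of_notMem hz).symm

theorem Lf_cons_cons (x y : ι) (l : List ι) :
    Lf (x :: y :: l) = Lf (y :: l) * Equiv.swap x y := by
  unfold Lf
  rw [List.formPerm_cons_cons, mul_inv_rev, Equiv.swap_inv]

theorem cyc_mem {C S : Finset ι} (h : C ⊆ S) : ∀ z ∈ S, cyc C z ∈ S := by
  apply Lf_apply_mem
  intro z hz
  exact h (mem_srt.1 hz)

theorem cyc_fix {C : Finset ι} {z : ι} (hz : z ∉ C) : cyc C z = z :=
  Lf_fix (fun h => hz (mem_srt.1 h))

/-- the four cycles around two adjacent elements -/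
theorem cyc_adj {C : Finset ι} {x y : ι} (hx : x ∈ C) (hy : y ∈ C) (hxy : x < y)
    (hadj : ∀ z ∈ C, ¬ (x < z ∧ z < y)) :
    ∃ l : List ι, (x :: y :: l).Nodup ∧ (∀ z, z ∈ l ↔ z ∈ (C.erase x).erase y) ∧
      cyc C = Lf (x :: y :: l) ∧ cyc (C.erase x) = Lf (y :: l) ∧ cyc (C.erase y) = Lf (x :: l) ∧
      cyc ((C.erase x).erase y) = Lf l ∧
      Equiv.swap x y * cyc C * Equiv.swap x y = Lf (y :: x :: l) := by
  obtain ⟨l₁, l₂, h⟩ := srt_adj hx hy hxy hadj
  have hn : (l₁ ++ x :: y :: l₂).Nodup := h ▸ srt_nodup C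
  have hn' : (x :: y :: (l₂ ++ l₁)).Nodup := by
    have : (x :: y :: (l₂ ++ l₁)).Perm (l₁ ++ x :: y :: l₂) := by
      have h1 : x :: y :: (l₂ ++ l₁) = (x :: y :: l₂) ++ l₁ := by simp
      rw [h1]
      exact List.perm_append_comm
    exact this.nodup_iff.2 hn
  have hmem : ∀ z, z ∈ C ↔ z ∈ l₁ ∨ z = x ∨ z = y ∨ z ∈ l₂ := by
    intro z
    rw [← mem_srt, h]
    simp
  have hxn : x ∉ l₁ ∧ x ∉ l₂ ∧ y ∉ l₁ ∧ y ∉ l₂ ∧ x ≠ y := by
    simp only [List.nodup_cons, List.mem_cons, List.mem_append, not_or] at hn'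
    tauto
  obtain ⟨hx1, hx2, hy1, hy2, hne⟩ := hxn
  have hCx : srt (C.erase x) = l₁ ++ y :: l₂ := by
    apply srt_sublist (C := C)
    · rw [h]
      exact List.Sublist.append_left (List.sublist_cons_self _ _) _
    · ext z
      simp only [List.mem_toFinset, List.mem_append, List.mem_cons, Finset.mem_erase, hmem]
      constructor
      · rintro (h1 | h1 | h1)
        · exact ⟨fun h2 => hx1 (h2 ▸ h1), Or.inl h1⟩
        · exact ⟨fun h2 => hne (h2.symm.trans h1), Or.inr (Or.inr (Or.inl h1))⟩
        · exact ⟨fun h2 => hx2 (h2 ▸ h1), Or.inr (Or.inr (Or.inr h1))⟩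
      · tauto
  have hCy : srt (C.erase y) = l₁ ++ x :: l₂ := by
    apply srt_sublist (C := C)
    · rw [h]
      exact List.Sublist.append_left (List.Sublist.cons_cons _ (List.sublist_cons_self _ _)) _
    · ext z
      simp only [List.mem_toFinset, List.mem_append, List.mem_cons, Finset.mem_erase, hmem]
      constructor
      · rintro (h1 | h1 | h1)
        · exact ⟨fun h2 => hy1 (h2 ▸ h1), Or.inl h1⟩
        · exact ⟨fun h2 => hne (h1.symm.trans h2), Or.inr (Or.inl h1)⟩
        · exact ⟨fun h2 => hy2 (h2 ▸ h1), Or.inr (Or.inr (Or.inr h1))⟩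
      · tauto
  have hCxy : srt ((C.erase x).erase y) = l₁ ++ l₂ := by
    apply srt_sublist (C := C)
    · rw [h]
      apply List.Sublist.append_left
      exact (List.sublist_cons_self _ _).trans (List.sublist_cons_self _ _)
    · ext z
      simp only [List.mem_toFinset, List.mem_append, Finset.mem_erase, hmem]
      constructor
      · rintro (h1 | h1)
        · exact ⟨fun h2 => hy1 (h2 ▸ h1), fun h2 => hx1 (h2 ▸ h1), Or.inl h1⟩
        · exact ⟨fun h2 => hy2 (h2 ▸ h1), fun h2 => hx2 (h2 ▸ h1), Or.inr (Or.inr (Or.inr h1))⟩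
      · tauto
  refine ⟨l₂ ++ l₁, hn', ?_, ?_, ?_, ?_, ?_, ?_⟩
  · intro z
    rw [← mem_srt, hCxy]
    simp [or_comm]
  · rw [cyc_eq, h, Lf_append_comm hn]
    simp
  · rw [cyc_eq, hCx, Lf_append_comm (by rw [← hCx]; exact srt_nodup _)]
    simp
  · rw [cyc_eq, hCy, Lf_append_comm (by rw [← hCy]; exact srt_nodup _)]
    simp
  · rw [cyc_eq, hCxy, Lf_append_comm (by rw [← hCxy]; exact srt_nodup _)]
  · have h1 : cyc C = Lf (x :: y :: (l₂ ++ l₁)) := by
      rw [cyc_eq, h, Lf_append_comm hn]
      simp
    have h2 : y :: x :: (l₂ ++ l₁) = (x :: y :: (l₂ ++ l₁)).map (Equiv.swap x y) := by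
      rw [List.map_cons, List.map_cons, Equiv.swap_apply_left, Equiv.swap_apply_right]
      congr 2
      symm
      conv_rhs => rw [← List.map_id (l₂ ++ l₁)]
      apply List.map_congr_left
      intro z hz
      apply Equiv.swap_apply_of_ne_of_ne
      · rintro rfl
        rw [List.mem_append] at hz
        tauto
      · rintro rfl
        rw [List.mem_append] at hz
        tauto
    rw [h1, h2]
    unfold Lf
    rw [formPerm_map, mul_inv_rev, mul_inv_rev, inv_inv, Equiv.swap_inv]
    group

/-- the cycle of the image of a set that contains not both of two adjacent elements -/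
theorem cyc_image {C V : Finset ι} (hC : C ⊆ V) {x y : ι} (hxV : x ∈ V) (hyV : y ∈ V)
    (hxy : x < y) (hadj : ∀ z ∈ V, ¬ (x < z ∧ z < y)) (hn : ¬ (x ∈ C ∧ y ∈ C)) :
    cyc (C.image (Equiv.swap x y)) = Equiv.swap x y * cyc C * Equiv.swap x y := by
  have h1 : srt (C.image (Equiv.swap x y)) = (srt C).map (Equiv.swap x y) := by
    symm
    unfold srt
    have hmono : ∀ a ∈ C, ∀ b ∈ C, a ≤ b → Equiv.swap x y a ≤ Equiv.swap x y b := by
      intro a ha b hb hab
      have haV := hC ha
      have hbV := hC hb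
      by_cases hax : a = x
      · subst hax
        rw [Equiv.swap_apply_left]
        by_cases hba : b = a
        · subst hba; rw [Equiv.swap_apply_left]
        · have hby : b ≠ y := fun h => hn ⟨ha, h ▸ hb⟩
          rw [Equiv.swap_apply_of_ne_of_ne hba hby]
          by_contra hlt
          exact hadj b hbV ⟨lt_of_le_of_ne hab (Ne.symm hba), not_le.1 hlt⟩
      · by_cases hay : a = y
        · subst hay
          rw [Equiv.swap_apply_right]
          by_cases hba : b = a
          · subst hba; rw [Equiv.swap_apply_right]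
          · have hbx : b ≠ x := by
              rintro rfl
              exact hn ⟨hb, ha⟩
            rw [Equiv.swap_apply_of_ne_of_ne hbx hba]
            exact hxy.le.trans hab
        · rw [Equiv.swap_apply_of_ne_of_ne hax hay]
          by_cases hbx : b = x
          · subst hbx
            rw [Equiv.swap_apply_left]
            exact hab.trans hxy.le
          · by_cases hby : b = y
            · subst hby
              rw [Equiv.swap_apply_right]
              by_contra hlt
              exact hadj a haV ⟨not_le.1 hlt, lt_of_le_of_ne hab hay⟩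
            · rw [Equiv.swap_apply_of_ne_of_ne hbx hby]
              exact hab
    have h2 : ((C.sort (fun a b => a ≤ b)).map (Equiv.swap x y)).Pairwise (fun a b => a ≤ b) := by
      rw [List.pairwise_map]
      have h3 := Finset.pairwise_sort C (fun a b : ι => a ≤ b)
      refine List.Pairwise.imp_of_mem ?_ h3
      intro a b ha hb hab
      exact hmono a ((Finset.mem_sort _).1 ha) b ((Finset.mem_sort _).1 hb) hab
    have h4 : ((C.sort (fun a b => a ≤ b)).map (Equiv.swap x y)).Nodup :=
      (Finset.sort_nodup _ _).map (Equiv.swap x y).injective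
    have h5 : ((C.sort (fun a b => a ≤ b)).map (Equiv.swap x y)).toFinset
        = C.image (Equiv.swap x y) := by
      ext z
      simp
    have h6 := (List.toFinset_sort (fun a b : ι => a ≤ b) h4).2 h2
    rw [h5] at h6
    exact h6.symm
  rw [cyc_eq, h1, cyc_eq]
  unfold Lf
  rw [formPerm_map, mul_inv_rev, mul_inv_rev, inv_inv, Equiv.swap_inv]
  group

end MP_d81877_alT2
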