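import Mathlib
import Pool.Agent.Lib.MP_d81877_alI.Defs
import Pool.Agent.Lib.MP_d81877_alT2.Cyc

/-!
MP_d81877_al, part D, step T2: the twisted equivariance of the map `p` and the contraction of
two adjacent sites.
-/

namespace MP_d81877_alT2

open Finset Function MP_d81877_alI

variable {ι K : Type*} [LinearOrder ι] [Field K]

/-- the word with left letters given by `I` and right letters given by `J` on `S` -/
def wd (Z0 F S I J : Finset ι) : Fin 4 → Finset ι :=
  ![Z0 ∪ (S \ I), Z0 ∪ I, F ∪ (S \ J), F ∪ J]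

/-- the trace sums: left letters given by `I`, right letters given by `σ I` -/
def Fs (v : WW ι K) (Z0 F S : Finset ι) (σ : Equiv.Perm ι) : K :=
  ∑ I ∈ S.powerset, v (wd Z0 F S I (I.image σ))

/-- the map `p` -/
def p (V : Finset ι) (v : WW ι K) (A B : Finset ι) : K :=
  if A ⊆ V ∧ B ⊆ V ∧ (B \ A).Nonempty then
    Fs v (V \ (A ∪ B)) (A ∩ B) (symmDiff A B) (cyc (B \ A)) else 0

/-- the three term relation -/
def ThreeT (V : Finset ι) (v : WW ι K) : Prop :=
  ∀ (Z0 F S : Finset ι) (σ τ : Equiv.Perm ι) (a b c : ι), Z0 ⊆ V → F ⊆ V → S ⊆ V →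
    Disjoint Z0 F → Disjoint Z0 S → Disjoint F S → (∀ x ∈ S, σ x ∈ S) → (∀ x ∈ S, τ x ∈ S) →
    a ∈ S → b ∈ S → c ∈ S → a ≠ b → a ≠ c → b ≠ c →
    Fs v Z0 F S (σ * Equiv.swap a b * τ) + Fs v Z0 F S (σ * Equiv.swap a c * τ)
      + Fs v Z0 F S (σ * Equiv.swap b c * τ) = 0

/-- the action of a permutation of the sites on words -/
def act (π : Equiv.Perm ι) (v : WW ι K) : WW ι K := fun S => v (fun j => (S j).image π)

theorem wd_image (π : Equiv.Perm ι) (Z0 F S I J : Finset ι) :
    (fun j => (wd Z0 F S I J j).image π)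
      = wd (Z0.image π) (F.image π) (S.image π) (I.image π) (J.image π) := by
  funext j
  fin_cases j <;>
    simp [wd, Finset.image_union, Finset.image_sdiff _ _ π.injective]

theorem Fs_act (π : Equiv.Perm ι) (v : WW ι K) (Z0 F S : Finset ι) (σ : Equiv.Perm ι) :
    Fs (act π v) Z0 F S σ
      = Fs v (Z0.image π) (F.image π) (S.image π) (π * σ * π⁻¹) := by
  unfold Fs act
  refine Finset.sum_nbij' (fun I => I.image π) (fun I => I.image (π⁻¹ : Equiv.Perm ι)) ?_ ?_ ?_ ?_ ?_
  · intro I hI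
    rw [Finset.mem_powerset] at hI ⊢
    exact Finset.image_subset_image hI
  · intro I hI
    rw [Finset.mem_powerset] at hI ⊢
    have := Finset.image_subset_image (f := (π⁻¹ : Equiv.Perm ι)) hI
    rw [Finset.image_image] at this
    simpa using this
  · intro I _
    simp [Finset.image_image]
  · intro I _
    simp [Finset.image_image]
  · intro I _
    rw [wd_image]
    congr 2
    rw [Finset.image_image, Finset.image_image]
    congr 1
    funext z
    simp

theorem Fs_congr {v : WW ι K} {Z0 F S : Finset ι} {σ τ : Equiv.Perm ι}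
    (h : ∀ x ∈ S, σ x = τ x) : Fs v Z0 F S σ = Fs v Z0 F S τ := by
  unfold Fs
  apply Finset.sum_congr rfl
  intro I hI
  rw [Finset.mem_powerset] at hI
  congr 2
  apply Finset.image_congr
  intro x hx
  exact h x (hI hx)

/-- **(SW)**: exchanging two neighbours of a cycle -/
theorem ThreeT.sw [CharP K 2] {V : Finset ι} {v : WW ι K} (h : ThreeT V v) {Z0 F S : Finset ι}
    (hZ : Z0 ⊆ V) (hF : F ⊆ V) (hS : S ⊆ V) (h1 : Disjoint Z0 F) (h2 : Disjoint Z0 S)
    (h3 : Disjoint F S) {x y z : ι} {l : List ι} (hn : (x :: y :: z :: l).Nodup)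
    (hl : ∀ t ∈ x :: y :: z :: l, t ∈ S) :
    Fs v Z0 F S (Lf (y :: x :: z :: l))
      = Fs v Z0 F S (Lf (x :: y :: z :: l)) + Fs v Z0 F S (Lf (z :: l)) := by
  have hx : x ∈ S := hl x (by simp)
  have hy : y ∈ S := hl y (by simp)
  have hz : z ∈ S := hl z (by simp)
  have hxy : x ≠ y := by rintro rfl; simp at hn
  have hxz : x ≠ z := by rintro rfl; simp at hn
  have hyz : y ≠ z := by rintro rfl; simp at hn
  have hσ : ∀ t ∈ S, Lf (z :: l) t ∈ S := by
    apply Lf_apply_mem
    intro t ht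
    exact hl t (List.mem_cons_of_mem _ (List.mem_cons_of_mem _ ht))
  have hτ : ∀ t ∈ S, Equiv.swap x y t ∈ S := by
    intro t ht
    rw [Equiv.swap_apply_def]
    split_ifs
    · exact hy
    · exact hx
    · exact ht
  have := h Z0 F S (Lf (z :: l)) (Equiv.swap x y) x y z hZ hF hS h1 h2 h3 hσ hτ hx hy hz
    hxy hxz hyz
  rw [Lf_cons_cons, Lf_cons_cons, Lf_cons_cons, Lf_cons_cons, Equiv.swap_comm y x]
  rw [mul_assoc, Equiv.swap_mul_self, mul_one] at this
  have h5 := CharTwo.add_self_eq_zero (Fs v Z0 F S (Lf (z :: l)))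
  linear_combination this - h5 - CharTwo.add_self_eq_zero
    (Fs v Z0 F S (Lf (z :: l) * Equiv.swap y z * Equiv.swap x y))

/-- the three term relation for a two cycle times a cycle -/
theorem ThreeT.two [CharP K 2] {V : Finset ι} {v : WW ι K} (h : ThreeT V v) {Z0 F S : Finset ι}
    (hZ : Z0 ⊆ V) (hF : F ⊆ V) (hS : S ⊆ V) (h1 : Disjoint Z0 F) (h2 : Disjoint Z0 S)
    (h3 : Disjoint F S) {x y z : ι} {l : List ι} (hn : (x :: y :: z :: l).Nodup)
    (hl : ∀ t ∈ x :: y :: z :: l, t ∈ S) :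
    Fs v Z0 F S (Lf (z :: l) * Equiv.swap x y)
      = Fs v Z0 F S (Lf (x :: z :: l)) + Fs v Z0 F S (Lf (y :: z :: l)) := by
  have hx : x ∈ S := hl x (by simp)
  have hy : y ∈ S := hl y (by simp)
  have hz : z ∈ S := hl z (by simp)
  have hxy : x ≠ y := by rintro rfl; simp at hn
  have hxz : x ≠ z := by rintro rfl; simp at hn
  have hyz : y ≠ z := by rintro rfl; simp at hn
  have hσ : ∀ t ∈ S, Lf (z :: l) t ∈ S := by
    apply Lf_apply_mem
    intro t ht
    exact hl t (List.mem_cons_of_mem _ (List.mem_cons_of_mem _ ht))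
  have := h Z0 F S (Lf (z :: l)) 1 x y z hZ hF hS h1 h2 h3 hσ (fun t ht => ht) hx hy hz
    hxy hxz hyz
  rw [Lf_cons_cons, Lf_cons_cons]
  rw [mul_one, mul_one, mul_one] at this
  linear_combination this - CharTwo.add_self_eq_zero
    (Fs v Z0 F S (Lf (z :: l) * Equiv.swap x z)) - CharTwo.add_self_eq_zero
    (Fs v Z0 F S (Lf (z :: l) * Equiv.swap y z))

end MP_d81877_alT2
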