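import Mathlib
import Pool.Agent.Lib.MP_d81877_alT2.Fs

/-!
MP_d81877_al, part D, step T2b: the twisted equivariance of the map `p` under adjacent
transpositions.
-/

namespace MP_d81877_alT2

open Finset Function MP_d81877_alI

variable {ι K : Type*} [LinearOrder ι] [Field K]

theorem image_swap_subset {V : Finset ι} {x y : ι} (hx : x ∈ V) (hy : y ∈ V) (A : Finset ι) :
    A.image (Equiv.swap x y) ⊆ V ↔ A ⊆ V := by
  constructor
  · intro h a ha
    have h1 := h (Finset.mem_image_of_mem (Equiv.swap x y) ha)
    by_cases hax : a = x
    · rw [hax]; exact hx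
    · by_cases hay : a = y
      · rw [hay]; exact hy
      · rwa [Equiv.swap_apply_of_ne_of_ne hax hay] at h1
  · intro h a ha
    rw [Finset.mem_image] at ha
    obtain ⟨c, hc, rfl⟩ := ha
    rw [Equiv.swap_apply_def]
    split_ifs
    · exact hy
    · exact hx
    · exact h hc

theorem image_swap_eq {V : Finset ι} {x y : ι} (hx : x ∈ V) (hy : y ∈ V) :
    V.image (Equiv.swap x y) = V := by
  apply Finset.Subset.antisymm ((image_swap_subset hx hy V).2 (Finset.Subset.refl _))
  intro a ha
  rw [Finset.mem_image]
  refine ⟨Equiv.swap x y a, ?_, Equiv.swap_apply_self _ _ _⟩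
  have := (image_swap_subset hx hy V).2 (Finset.Subset.refl _)
  exact this (Finset.mem_image_of_mem _ ha)

theorem image_swap_of_notMem {A : Finset ι} {x y : ι} (hx : x ∉ A) (hy : y ∉ A) :
    A.image (Equiv.swap x y) = A := by
  conv_rhs => rw [← Finset.image_id (s := A)]
  apply Finset.image_congr
  intro a ha
  exact Equiv.swap_apply_of_ne_of_ne (fun h => hx (h ▸ ha)) (fun h => hy (h ▸ ha))

theorem p_of_not {V : Finset ι} {v : WW ι K} {A B : Finset ι}
    (h : ¬ (A ⊆ V ∧ B ⊆ V ∧ (B \ A).Nonempty)) : p V v A B = 0 := if_neg h

theorem p_of {V : Finset ι} {v : WW ι K} {A B : Finset ι}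
    (h : A ⊆ V ∧ B ⊆ V ∧ (B \ A).Nonempty) :
    p V v A B = Fs v (V \ (A ∪ B)) (A ∩ B) (symmDiff A B) (cyc (B \ A)) := if_pos h

/-- **T2b**: twisted equivariance. -/
theorem p_swap [CharP K 2] {V : Finset ι} {v : WW ι K} (h3 : ThreeT V v) {x y : ι} (hx : x ∈ V)
    (hy : y ∈ V) (hxy : x < y) (hadj : ∀ z ∈ V, ¬ (x < z ∧ z < y)) (A B : Finset ι) :
    p V (act (Equiv.swap x y) v) A B
      = p V v (A.image (Equiv.swap x y)) (B.image (Equiv.swap x y))
        + if x ∈ B ∧ y ∈ B ∧ x ∉ A ∧ y ∉ A then
            p V v (insert x (insert y A)) ((B.erase x).erase y) else 0 := by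
  set s : Equiv.Perm ι := Equiv.swap x y with hs
  have hne : x ≠ y := hxy.ne
  by_cases h : A ⊆ V ∧ B ⊆ V ∧ (B \ A).Nonempty
  · have h' : A.image s ⊆ V ∧ B.image s ⊆ V ∧ (B.image s \ A.image s).Nonempty := by
      refine ⟨(image_swap_subset hx hy A).2 h.1, (image_swap_subset hx hy B).2 h.2.1, ?_⟩
      rw [← Finset.image_sdiff _ _ s.injective]
      exact h.2.2.image _
    rw [p_of h, p_of h', Fs_act, Finset.image_sdiff _ _ s.injective,
      Finset.image_union, Finset.image_inter _ _ s.injective, image_swap_eq hx hy]
    have hsym : (symmDiff A B).image s = symmDiff (A.image s) (B.image s) := by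
      rw [symmDiff_def, symmDiff_def, Finset.sup_eq_union, Finset.sup_eq_union,
        Finset.image_union, Finset.image_sdiff _ _ s.injective,
        Finset.image_sdiff _ _ s.injective]
    rw [hsym]
    have hsinv : s⁻¹ = s := Equiv.swap_inv x y
    rw [hsinv]
    by_cases hb : x ∈ B \ A ∧ y ∈ B \ A
    · obtain ⟨hxB, hyB⟩ := hb
      rw [Finset.mem_sdiff] at hxB hyB
      have hcond : x ∈ B ∧ y ∈ B ∧ x ∉ A ∧ y ∉ A := ⟨hxB.1, hyB.1, hxB.2, hyB.2⟩
      rw [if_pos hcond]
      have hA : A.image s = A := image_swap_of_notMem hxB.2 hyB.2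
      have hB : B.image s = B := image_swap_eq hxB.1 hyB.1
      rw [hA, hB]
      have hxC : x ∈ B \ A := Finset.mem_sdiff.2 hxB
      have hyC : y ∈ B \ A := Finset.mem_sdiff.2 hyB
      obtain ⟨l, hn, hmem, hc1, hc2, hc3, hc4, hc5⟩ := cyc_adj hxC hyC hxy
        (fun z hz => hadj z (h.2.1 (Finset.mem_sdiff.1 hz).1))
      rw [← hs] at hc5
      rw [hc5, hc1]
      have hC' : (B.erase x).erase y \ insert x (insert y A) = ((B \ A).erase x).erase y := by
        ext t
        simp only [Finset.mem_sdiff, Finset.mem_erase, Finset.mem_insert]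
        tauto
      have e1 : V \ (insert x (insert y A) ∪ (B.erase x).erase y) = V \ (A ∪ B) := by
        ext t
        simp only [Finset.mem_sdiff, Finset.mem_union, Finset.mem_erase, Finset.mem_insert]
        constructor
        · rintro ⟨ht, ht'⟩
          refine ⟨ht, ?_⟩
          tauto
        · rintro ⟨ht, ht'⟩
          refine ⟨ht, ?_⟩
          rintro ((rfl | rfl | h5) | ⟨_, _, h5⟩)
          · exact ht' (Or.inr hxB.1)
          · exact ht' (Or.inr hyB.1)
          · exact ht' (Or.inl h5)
          · exact ht' (Or.inr h5)
      have e2 : insert x (insert y A) ∩ (B.erase x).erase y = A ∩ B := by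
        ext t
        simp only [Finset.mem_inter, Finset.mem_erase, Finset.mem_insert]
        constructor
        · rintro ⟨h5, h6, h7, h8⟩
          exact ⟨by tauto, h8⟩
        · rintro ⟨h5, h6⟩
          refine ⟨Or.inr (Or.inr h5), ?_, ?_, h6⟩
          · rintro rfl; exact hyB.2 h5
          · rintro rfl; exact hxB.2 h5
      have e3 : symmDiff (insert x (insert y A)) ((B.erase x).erase y) = symmDiff A B := by
        ext t
        simp only [Finset.mem_symmDiff, Finset.mem_erase, Finset.mem_insert]
        by_cases htx : t = x
        · subst htx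
          simp [hxB.1, hxB.2]
        · by_cases hty : t = y
          · subst hty
            simp [hyB.1, hyB.2]
          · simp [htx, hty]
      cases l with
      | nil =>
        have hemp : ((B \ A).erase x).erase y = ∅ := by
          apply Finset.eq_empty_of_forall_notMem
          intro z hz
          exact absurd ((hmem z).2 hz) (by simp)
        rw [p_of_not (A := insert x (insert y A)) (B := (B.erase x).erase y)]
        · rw [add_zero]
          have : Lf [y, x] = Lf [x, y] := by
            unfold Lf
            rw [List.formPerm_pair, List.formPerm_pair, Equiv.swap_comm]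
          rw [this]
        · rintro ⟨_, _, h7⟩
          rw [hC', hemp] at h7
          exact Finset.not_nonempty_empty h7
      | cons z l =>
        have hz : z ∈ ((B \ A).erase x).erase y := (hmem z).1 (by simp)
        have hp : insert x (insert y A) ⊆ V ∧ (B.erase x).erase y ⊆ V ∧
            ((B.erase x).erase y \ insert x (insert y A)).Nonempty := by
          refine ⟨?_, ?_, ?_⟩
          · intro t ht
            rw [Finset.mem_insert, Finset.mem_insert] at ht
            rcases ht with rfl | rfl | ht
            · exact hx
            · exact hy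
            · exact h.1 ht
          · exact ((Finset.erase_subset _ _).trans (Finset.erase_subset _ _)).trans h.2.1
          · rw [hC']
            exact ⟨z, hz⟩
        rw [p_of hp, e1, e2, e3, hC', hc4]
        apply h3.sw
        · exact Finset.sdiff_subset
        · exact Finset.inter_subset_left.trans h.1
        · intro t ht
          rw [Finset.mem_symmDiff] at ht
          rcases ht with ht | ht
          · exact h.1 ht.1
          · exact h.2.1 ht.1
        · rw [Finset.disjoint_left]
          intro t ht ht'
          rw [Finset.mem_sdiff, Finset.mem_union] at ht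
          rw [Finset.mem_inter] at ht'
          exact ht.2 (Or.inl ht'.1)
        · rw [Finset.disjoint_left]
          intro t ht ht'
          rw [Finset.mem_sdiff, Finset.mem_union] at ht
          rw [Finset.mem_symmDiff] at ht'
          rcases ht' with ht' | ht'
          · exact ht.2 (Or.inl ht'.1)
          · exact ht.2 (Or.inr ht'.1)
        · rw [Finset.disjoint_left]
          intro t ht ht'
          rw [Finset.mem_inter] at ht
          rw [Finset.mem_symmDiff] at ht'
          rcases ht' with ht' | ht'
          · exact ht'.2 ht.2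
          · exact ht'.2 ht.1
        · exact hn
        · intro t ht
          rw [Finset.mem_symmDiff]
          right
          rw [List.mem_cons, List.mem_cons] at ht
          rcases ht with rfl | rfl | ht
          · exact hxB
          · exact hyB
          · have := (hmem t).1 ht
            rw [Finset.mem_erase, Finset.mem_erase, Finset.mem_sdiff] at this
            exact this.2.2
    · rw [if_neg, add_zero]
      · rw [← Finset.image_sdiff _ _ s.injective]
        rw [cyc_image (Finset.sdiff_subset.trans h.2.1) hx hy hxy hadj hb]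
      · rintro ⟨h5, h6, h7, h8⟩
        exact hb ⟨Finset.mem_sdiff.2 ⟨h5, h7⟩, Finset.mem_sdiff.2 ⟨h6, h8⟩⟩
  · rw [p_of_not h, p_of_not (A := A.image s)]
    · rw [zero_add]
      split_ifs with hc
      · rw [p_of_not]
        rintro ⟨h5, h6, h7⟩
        apply h
        have hA : A ⊆ V := ((Finset.subset_insert _ _).trans (Finset.subset_insert _ _)).trans h5
        refine ⟨hA, ?_, ?_⟩
        · intro t ht
          by_cases htx : t = x
          · rw [htx]; exact hx
          · by_cases hty : t = y
            · rw [hty]; exact hy
            · exact h6 (Finset.mem_erase.2 ⟨hty, Finset.mem_erase.2 ⟨htx, ht⟩⟩)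
        · exact ⟨x, Finset.mem_sdiff.2 ⟨hc.1, hc.2.2.1⟩⟩
      · rfl
    · rintro ⟨h5, h6, h7⟩
      apply h
      refine ⟨(image_swap_subset hx hy A).1 h5, (image_swap_subset hx hy B).1 h6, ?_⟩
      rw [← Finset.image_sdiff _ _ s.injective] at h7
      exact Finset.image_nonempty.1 h7

end MP_d81877_alT2
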