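import Mathlib
import Pool.Agent.Lib.MP_d81877_alT2.Swap

/-!
MP_d81877_al, part D, step T2a: the map `p` and the contraction of two adjacent sites.
-/

namespace MP_d81877_alT2

open Finset Function MP_d81877_alI

variable {ι K : Type*} [LinearOrder ι] [Field K]

theorem pairs_four : (univ : Finset (Fin 4)).powersetCard 2
    = {{0, 1}, {2, 3}, {0, 2}, {1, 3}, {0, 3}, {1, 2}} := by decide

/-- the six words of a contraction -/
theorem ctr_eq (i k : ι) (v : WW ι K) (S0 S1 S2 S3 : Finset ι)
    (h : ∀ l, i ∉ (![S0, S1, S2, S3] : Fin 4 → Finset ι) l ∧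
      k ∉ (![S0, S1, S2, S3] : Fin 4 → Finset ι) l) :
    ctr i k v ![S0, S1, S2, S3]
      = v ![insert i S0, insert i S1, insert k S2, insert k S3]
        + (v ![insert k S0, insert k S1, insert i S2, insert i S3]
        + (v ![insert i S0, insert k S1, insert i S2, insert k S3]
        + (v ![insert k S0, insert i S1, insert k S2, insert i S3]
        + (v ![insert i S0, insert k S1, insert k S2, insert i S3]
        + v ![insert k S0, insert i S1, insert i S2, insert k S3])))) := by
  unfold ctr
  rw [if_pos h, pairs_four]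
  rw [Finset.sum_insert (by decide), Finset.sum_insert (by decide), Finset.sum_insert (by decide),
    Finset.sum_insert (by decide), Finset.sum_insert (by decide), Finset.sum_singleton]
  congr 1
  · congr 1; funext l; fin_cases l <;> rfl
  congr 1
  · congr 1; funext l; fin_cases l <;> rfl
  congr 1
  · congr 1; funext l; fin_cases l <;> rfl
  congr 1
  · congr 1; funext l; fin_cases l <;> rfl
  congr 1
  · congr 1; funext l; fin_cases l <;> rfl
  · congr 1; funext l; fin_cases l <;> rfl

/-- the trace sum over `S ∪ {i, k}` split according to the letters at `i` and `k` -/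
theorem Fs_insert_two (v : WW ι K) {Z0 F S : Finset ι} {i k : ι} (hi : i ∉ S) (hk : k ∉ S)
    (hik : i ≠ k) (σ : Equiv.Perm ι) :
    Fs v Z0 F (insert i (insert k S)) σ
      = (∑ I ∈ S.powerset, v (wd Z0 F (insert i (insert k S)) I (I.image σ))
        + ∑ I ∈ S.powerset, v (wd Z0 F (insert i (insert k S)) (insert k I)
            ((insert k I).image σ)))
        + (∑ I ∈ S.powerset, v (wd Z0 F (insert i (insert k S)) (insert i I)
            ((insert i I).image σ))
        + ∑ I ∈ S.powerset, v (wd Z0 F (insert i (insert k S)) (insert i (insert k I))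
            ((insert i (insert k I)).image σ))) := by
  unfold Fs
  rw [Finset.sum_powerset_insert (by simp [hik, hi]), Finset.sum_powerset_insert hk,
    Finset.sum_powerset_insert hk]

/-- the contraction of two sites as trace sums -/
theorem Fs_ctr [CharP K 2] (v : WW ι K) {Z0 F S : Finset ι} {i k : ι} (hi : i ∉ S) (hk : k ∉ S)
    (hiZ : i ∉ Z0) (hkZ : k ∉ Z0) (hiF : i ∉ F) (hkF : k ∉ F) (hik : i ≠ k) (σ : Equiv.Perm ι)
    (hσ : ∀ x ∈ S, σ x ∈ S) (hσi : σ i = i) (hσk : σ k = k) :
    Fs (ctr i k v) Z0 F S σ
      = Fs v (insert i Z0) (insert k F) S σ + (Fs v (insert k Z0) (insert i F) S σ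
        + (Fs v Z0 F (insert i (insert k S)) σ
          + Fs v Z0 F (insert i (insert k S)) (σ * Equiv.swap i k))) := by
  rw [Fs_insert_two v hi hk hik, Fs_insert_two v hi hk hik]
  have hterm : ∀ I ∈ S.powerset, ctr i k v (wd Z0 F S I (I.image σ))
      = v (wd (insert i Z0) (insert k F) S I (I.image σ))
        + (v (wd (insert k Z0) (insert i F) S I (I.image σ))
        + (v (wd Z0 F (insert i (insert k S)) (insert k I) (insert k (I.image σ)))
        + (v (wd Z0 F (insert i (insert k S)) (insert i I) (insert i (I.image σ)))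
        + (v (wd Z0 F (insert i (insert k S)) (insert k I) (insert i (I.image σ)))
        + v (wd Z0 F (insert i (insert k S)) (insert i I) (insert k (I.image σ))))))) := by
    intro I hI
    rw [Finset.mem_powerset] at hI
    have hiI : i ∉ I := fun h => hi (hI h)
    have hkI : k ∉ I := fun h => hk (hI h)
    have hJ : I.image σ ⊆ S := by
      intro t ht
      obtain ⟨c, hc, rfl⟩ := Finset.mem_image.1 ht
      exact hσ c (hI hc)
    have hiJ : i ∉ I.image σ := fun h => hi (hJ h)
    have hkJ : k ∉ I.image σ := fun h => hk (hJ h)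
    set J := I.image σ with hJdef
    unfold wd
    rw [ctr_eq]
    · have g1 : insert i (S \ I) = insert i (insert k S) \ insert k I := by
        ext t
        simp only [Finset.mem_insert, Finset.mem_sdiff]
        constructor
        · rintro (rfl | ⟨h1, h2⟩)
          · exact ⟨Or.inl rfl, fun h => h.elim hik hiI⟩
          · exact ⟨Or.inr (Or.inr h1), fun h => h.elim (fun e => hk (e ▸ h1)) h2⟩
        · rintro ⟨h1, h2⟩
          tauto
      have g2 : insert k (S \ I) = insert i (insert k S) \ insert i I := by
        ext t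
        simp only [Finset.mem_insert, Finset.mem_sdiff]
        constructor
        · rintro (rfl | ⟨h1, h2⟩)
          · exact ⟨Or.inr (Or.inl rfl), fun h => h.elim (fun e => hik e.symm) hkI⟩
          · exact ⟨Or.inr (Or.inr h1), fun h => h.elim (fun e => hi (e ▸ h1)) h2⟩
        · rintro ⟨h1, h2⟩
          tauto
      have g3 : insert i (S \ J) = insert i (insert k S) \ insert k J := by
        ext t
        simp only [Finset.mem_insert, Finset.mem_sdiff]
        constructor
        · rintro (rfl | ⟨h1, h2⟩)
          · exact ⟨Or.inl rfl, fun h => h.elim hik hiJ⟩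
          · exact ⟨Or.inr (Or.inr h1), fun h => h.elim (fun e => hk (e ▸ h1)) h2⟩
        · rintro ⟨h1, h2⟩
          tauto
      have g4 : insert k (S \ J) = insert i (insert k S) \ insert i J := by
        ext t
        simp only [Finset.mem_insert, Finset.mem_sdiff]
        constructor
        · rintro (rfl | ⟨h1, h2⟩)
          · exact ⟨Or.inr (Or.inl rfl), fun h => h.elim (fun e => hik e.symm) hkJ⟩
          · exact ⟨Or.inr (Or.inr h1), fun h => h.elim (fun e => hi (e ▸ h1)) h2⟩
        · rintro ⟨h1, h2⟩
          tauto
      have u1 : ∀ (a : ι) (P Q : Finset ι), insert a (P ∪ Q) = P ∪ insert a Q :=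
        fun a P Q => (Finset.union_insert a P Q).symm
      congr 1
      · congr 1
        funext l
        fin_cases l
        · exact (Finset.insert_union _ _ _).symm
        · exact (Finset.insert_union _ _ _).symm
        · exact (Finset.insert_union _ _ _).symm
        · exact (Finset.insert_union _ _ _).symm
      congr 1
      · congr 1
        funext l
        fin_cases l
        · exact (Finset.insert_union _ _ _).symm
        · exact (Finset.insert_union _ _ _).symm
        · exact (Finset.insert_union _ _ _).symm
        · exact (Finset.insert_union _ _ _).symm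
      congr 1
      · rw [u1 i Z0, u1 k Z0, u1 i F, u1 k F, g1, g3]
      congr 1
      · rw [u1 k Z0, u1 i Z0, u1 k F, u1 i F, g2, g4]
      congr 1
      · rw [u1 i Z0, u1 k Z0, u1 k F, u1 i F, g1, g4]
      · rw [u1 k Z0, u1 i Z0, u1 i F, u1 k F, g2, g3]
    · have hiS : ∀ P : Finset ι, i ∉ S \ P := fun P h => hi (Finset.mem_sdiff.1 h).1
      have hkS : ∀ P : Finset ι, k ∉ S \ P := fun P h => hk (Finset.mem_sdiff.1 h).1
      intro l
      fin_cases l
      · change i ∉ Z0 ∪ (S \ I) ∧ k ∉ Z0 ∪ (S \ I)
        rw [Finset.notMem_union, Finset.notMem_union]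
        exact ⟨⟨hiZ, hiS I⟩, ⟨hkZ, hkS I⟩⟩
      · change i ∉ Z0 ∪ I ∧ k ∉ Z0 ∪ I
        rw [Finset.notMem_union, Finset.notMem_union]
        exact ⟨⟨hiZ, hiI⟩, ⟨hkZ, hkI⟩⟩
      · change i ∉ F ∪ (S \ J) ∧ k ∉ F ∪ (S \ J)
        rw [Finset.notMem_union, Finset.notMem_union]
        exact ⟨⟨hiF, hiS J⟩, ⟨hkF, hkS J⟩⟩
      · change i ∉ F ∪ J ∧ k ∉ F ∪ J
        rw [Finset.notMem_union, Finset.notMem_union]
        exact ⟨⟨hiF, hiJ⟩, ⟨hkF, hkJ⟩⟩
  have hL : Fs (ctr i k v) Z0 F S σ
      = ∑ I ∈ S.powerset, v (wd (insert i Z0) (insert k F) S I (I.image σ))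
        + (∑ I ∈ S.powerset, v (wd (insert k Z0) (insert i F) S I (I.image σ))
        + (∑ I ∈ S.powerset, v (wd Z0 F (insert i (insert k S)) (insert k I)
            (insert k (I.image σ)))
        + (∑ I ∈ S.powerset, v (wd Z0 F (insert i (insert k S)) (insert i I)
            (insert i (I.image σ)))
        + (∑ I ∈ S.powerset, v (wd Z0 F (insert i (insert k S)) (insert k I)
            (insert i (I.image σ)))
        + ∑ I ∈ S.powerset, v (wd Z0 F (insert i (insert k S)) (insert i I)
            (insert k (I.image σ))))))) := by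
    unfold Fs
    rw [Finset.sum_congr rfl hterm]
    simp only [Finset.sum_add_distrib]
  have e1 : ∀ I ∈ S.powerset, (I.image (σ * Equiv.swap i k)) = I.image σ := by
    intro I hI
    rw [Finset.mem_powerset] at hI
    apply Finset.image_congr
    intro t ht
    change σ (Equiv.swap i k t) = σ t
    rw [Equiv.swap_apply_of_ne_of_ne]
    · rintro rfl; exact hi (hI ht)
    · rintro rfl; exact hk (hI ht)
  have s1 : (σ * Equiv.swap i k) i = k := by
    change σ (Equiv.swap i k i) = k
    rw [Equiv.swap_apply_left, hσk]
  have s2 : (σ * Equiv.swap i k) k = i := by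
    change σ (Equiv.swap i k k) = i
    rw [Equiv.swap_apply_right, hσi]
  have r1 : ∑ I ∈ S.powerset, v (wd Z0 F (insert i (insert k S)) I
        (I.image (σ * Equiv.swap i k)))
      = ∑ I ∈ S.powerset, v (wd Z0 F (insert i (insert k S)) I (I.image σ)) := by
    apply Finset.sum_congr rfl
    intro I hI
    rw [e1 I hI]
  have r2 : ∑ I ∈ S.powerset, v (wd Z0 F (insert i (insert k S)) (insert k I)
        ((insert k I).image (σ * Equiv.swap i k)))
      = ∑ I ∈ S.powerset, v (wd Z0 F (insert i (insert k S)) (insert k I)
        (insert i (I.image σ))) := by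
    apply Finset.sum_congr rfl
    intro I hI
    rw [Finset.image_insert, e1 I hI, s2]
  have r3 : ∑ I ∈ S.powerset, v (wd Z0 F (insert i (insert k S)) (insert i I)
        ((insert i I).image (σ * Equiv.swap i k)))
      = ∑ I ∈ S.powerset, v (wd Z0 F (insert i (insert k S)) (insert i I)
        (insert k (I.image σ))) := by
    apply Finset.sum_congr rfl
    intro I hI
    rw [Finset.image_insert, e1 I hI, s1]
  have r4 : ∑ I ∈ S.powerset, v (wd Z0 F (insert i (insert k S)) (insert i (insert k I))
        ((insert i (insert k I)).image (σ * Equiv.swap i k)))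
      = ∑ I ∈ S.powerset, v (wd Z0 F (insert i (insert k S)) (insert i (insert k I))
        (insert i (insert k (I.image σ)))) := by
    apply Finset.sum_congr rfl
    intro I hI
    rw [Finset.image_insert, Finset.image_insert, e1 I hI, s1, s2,
      Finset.insert_comm k i (I.image σ)]
  have r2' : ∑ I ∈ S.powerset, v (wd Z0 F (insert i (insert k S)) (insert k I)
        ((insert k I).image σ))
      = ∑ I ∈ S.powerset, v (wd Z0 F (insert i (insert k S)) (insert k I)
        (insert k (I.image σ))) := by
    apply Finset.sum_congr rfl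
    intro I hI
    rw [Finset.image_insert, hσk]
  have r3' : ∑ I ∈ S.powerset, v (wd Z0 F (insert i (insert k S)) (insert i I)
        ((insert i I).image σ))
      = ∑ I ∈ S.powerset, v (wd Z0 F (insert i (insert k S)) (insert i I)
        (insert i (I.image σ))) := by
    apply Finset.sum_congr rfl
    intro I hI
    rw [Finset.image_insert, hσi]
  have r4' : ∑ I ∈ S.powerset, v (wd Z0 F (insert i (insert k S)) (insert i (insert k I))
        ((insert i (insert k I)).image σ))
      = ∑ I ∈ S.powerset, v (wd Z0 F (insert i (insert k S)) (insert i (insert k I))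
        (insert i (insert k (I.image σ)))) := by
    apply Finset.sum_congr rfl
    intro I hI
    rw [Finset.image_insert, Finset.image_insert, hσi, hσk]
  rw [hL, r1, r2, r3, r4, r2', r3', r4']
  unfold Fs
  have c1 := CharTwo.add_self_eq_zero (∑ I ∈ S.powerset, v (wd Z0 F (insert i (insert k S)) I
    (I.image σ)))
  have c2 := CharTwo.add_self_eq_zero (∑ I ∈ S.powerset, v (wd Z0 F (insert i (insert k S))
    (insert i (insert k I)) (insert i (insert k (I.image σ)))))
  linear_combination (-1 : K) * c1 - c2

end MP_d81877_alT2
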