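import Mathlib
import Pool.Agent.Lib.MP_d81877_alT2.Ctr
import Pool.Agent.Lib.MP_d81877_alI.Three
import Pool.Agent.Lib.MP_d81877_alM.Defs

/-!
MP_d81877_al, part D, step T2: final statements on the definitions of `alM/Defs.lean`.

* `T2b` : `p V (swW x y v) = tws x y (p V v)` for `x`, `y` adjacent in `V`;
* `T2a` : `p (V \ {i, k}) (ctr i k v)` is the contraction of `p V v`, `i`, `k` adjacent in `V`.
-/

namespace MP_d81877_alT2

open Finset Function MP_d81877_alI

variable {ι K : Type*} [LinearOrder ι] [Field K]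

/-- the trace sums of this folder and those of `alI/Three.lean` -/
theorem Fs_eq {V : Finset ι} {b : ℕ} {v : WW ι K} (hv : Dm V b v) {Z0 F S : Finset ι}
    (h2 : Disjoint Z0 S) {m : ℕ} (hm : S.card = 2 * m + 1) (σ : Equiv.Perm ι) :
    Fs v Z0 F S σ = MP_d81877_alI.Fs v Z0 F S m σ := by
  unfold Fs MP_d81877_alI.Fs
  symm
  apply Finset.sum_subset
  · intro I hI
    exact Finset.mem_powerset.2 (Finset.mem_powersetCard.1 hI).1
  · intro I hI hI'
    apply hv.shp
    rintro ⟨_, h4, h5, _, _⟩
    apply hI'
    rw [Finset.mem_powerset] at hI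
    refine Finset.mem_powersetCard.2 ⟨hI, ?_⟩
    change (Z0 ∪ (S \ I)).card + b = V.card at h4
    change (Z0 ∪ I).card + (b + 1) = V.card at h5
    rw [Finset.card_union_of_disjoint (h2.mono_right Finset.sdiff_subset)] at h4
    rw [Finset.card_union_of_disjoint (h2.mono_right hI)] at h5
    have := Finset.card_sdiff_add_card_eq_card hI
    omega

theorem Fs_even {V : Finset ι} {b : ℕ} {v : WW ι K} (hv : Dm V b v) {Z0 F S : Finset ι}
    (h2 : Disjoint Z0 S) (hm : ∀ m, S.card ≠ 2 * m + 1) (σ : Equiv.Perm ι) :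
    Fs v Z0 F S σ = 0 := by
  unfold Fs
  apply Finset.sum_eq_zero
  intro I hI
  apply hv.shp
  rintro ⟨_, h4, h5, _, _⟩
  rw [Finset.mem_powerset] at hI
  change (Z0 ∪ (S \ I)).card + b = V.card at h4
  change (Z0 ∪ I).card + (b + 1) = V.card at h5
  rw [Finset.card_union_of_disjoint (h2.mono_right Finset.sdiff_subset)] at h4
  rw [Finset.card_union_of_disjoint (h2.mono_right hI)] at h5
  have := Finset.card_sdiff_add_card_eq_card hI
  exact hm I.card (by omega)

/-- the three term relation holds for primitive vectors -/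
theorem threeT [CharP K 2] {V : Finset ι} {b : ℕ} {v : WW ι K} (hv : Dm V b v) :
    ThreeT V v := by
  intro Z0 F S σ τ a b' c _ _ _ h1 h2 h3 hσ hτ ha hb hc hab hac hbc
  by_cases hS : ∃ m, S.card = 2 * m + 1
  · obtain ⟨m, hm⟩ := hS
    rw [Fs_eq hv h2 hm, Fs_eq hv h2 hm, Fs_eq hv h2 hm]
    exact three hv.prm hm h2 h1 h3 hσ hτ ha hb hc hab hac hbc
  · have hS' : ∀ m, S.card ≠ 2 * m + 1 := fun m hm => hS ⟨m, hm⟩
    rw [Fs_even hv h2 hS', Fs_even hv h2 hS', Fs_even hv h2 hS']
    simp

theorem p_eq (V : Finset ι) (v : WW ι K) : D81877M.p V v = p V v := by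
  funext A B
  rfl

/-- **T2a** in the terms of this folder -/
theorem p_ctr [CharP K 2] {V : Finset ι} {v : WW ι K} (h3 : ThreeT V v) {i k : ι} (hi : i ∈ V)
    (hk : k ∈ V) (hik : i < k) (hadj : ∀ z ∈ V, ¬ (i < z ∧ z < k)) {A B : Finset ι}
    (hA : A ⊆ V \ {i, k}) (hB : B ⊆ V \ {i, k}) :
    p (V \ {i, k}) (ctr i k v) A B
      = p V v (insert k A) (insert k B) + p V v (insert i A) (insert i B)
        + p V v (insert i (insert k A)) B + p V v (insert i A) (insert k B)
        + p V v (insert k A) (insert i B) := by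
  have hne : i ≠ k := hik.ne
  have hAV : A ⊆ V := hA.trans Finset.sdiff_subset
  have hBV : B ⊆ V := hB.trans Finset.sdiff_subset
  have hiA : i ∉ A := fun h => (Finset.mem_sdiff.1 (hA h)).2 (by simp)
  have hkA : k ∉ A := fun h => (Finset.mem_sdiff.1 (hA h)).2 (by simp)
  have hiB : i ∉ B := fun h => (Finset.mem_sdiff.1 (hB h)).2 (by simp)
  have hkB : k ∉ B := fun h => (Finset.mem_sdiff.1 (hB h)).2 (by simp)
  set C := B \ A with hC
  have hiC : i ∉ C := fun h => hiB (Finset.mem_sdiff.1 h).1
  have hkC : k ∉ C := fun h => hkB (Finset.mem_sdiff.1 h).1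
  -- the five differences
  have d1 : insert k B \ insert k A = C := by
    clear * - hC hne hiA hkA hiB hkB
    ext t
    simp only [hC, Finset.mem_sdiff, Finset.mem_insert]
    constructor
    · rintro ⟨h5, h6⟩; tauto
    · rintro ⟨h5, h6⟩
      exact ⟨Or.inr h5, fun h => h.elim (fun e => hkB (e ▸ h5)) h6⟩
  have d2 : insert i B \ insert i A = C := by
    clear * - hC hne hiA hkA hiB hkB
    ext t
    simp only [hC, Finset.mem_sdiff, Finset.mem_insert]
    constructor
    · rintro ⟨h5, h6⟩; tauto
    · rintro ⟨h5, h6⟩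
      exact ⟨Or.inr h5, fun h => h.elim (fun e => hiB (e ▸ h5)) h6⟩
  have d3 : B \ insert i (insert k A) = C := by
    clear * - hC hne hiA hkA hiB hkB
    ext t
    simp only [hC, Finset.mem_sdiff, Finset.mem_insert]
    constructor
    · rintro ⟨h5, h6⟩; tauto
    · rintro ⟨h5, h6⟩
      refine ⟨h5, ?_⟩
      rintro (rfl | rfl | h)
      · exact hiB h5
      · exact hkB h5
      · exact h6 h
  have d4 : insert k B \ insert i A = insert k C := by
    clear * - hC hne hiA hkA hiB hkB
    ext t
    simp only [hC, Finset.mem_sdiff, Finset.mem_insert]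
    constructor
    · rintro ⟨h5 | h5, h6⟩
      · exact Or.inl h5
      · exact Or.inr ⟨h5, fun h => h6 (Or.inr h)⟩
    · rintro (rfl | ⟨h5, h6⟩)
      · exact ⟨Or.inl rfl, fun h => h.elim (fun e => hne e.symm) hkA⟩
      · exact ⟨Or.inr h5, fun h => h.elim (fun e => hiB (e ▸ h5)) h6⟩
  have d5 : insert i B \ insert k A = insert i C := by
    clear * - hC hne hiA hkA hiB hkB
    ext t
    simp only [hC, Finset.mem_sdiff, Finset.mem_insert]
    constructor
    · rintro ⟨h5 | h5, h6⟩
      · exact Or.inl h5
      · exact Or.inr ⟨h5, fun h => h6 (Or.inr h)⟩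
    · rintro (rfl | ⟨h5, h6⟩)
      · exact ⟨Or.inl rfl, fun h => h.elim hne hiA⟩
      · exact ⟨Or.inr h5, fun h => h.elim (fun e => hkB (e ▸ h5)) h6⟩
  -- subsets
  have vi : ∀ {P : Finset ι}, P ⊆ V → insert i P ⊆ V := fun hP =>
    Finset.insert_subset hi hP
  have vk : ∀ {P : Finset ι}, P ⊆ V → insert k P ⊆ V := fun hP =>
    Finset.insert_subset hk hP
  set Z0 := (V \ {i, k}) \ (A ∪ B) with hZ0
  set F := A ∩ B with hF
  set S := symmDiff A B with hS
  have hmS : ∀ t, t ∈ S ↔ (t ∈ A ∧ t ∉ B) ∨ (t ∈ B ∧ t ∉ A) := by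
    intro t; rw [hS, Finset.mem_symmDiff]
  have hiS : i ∉ S := by rw [hmS]; tauto
  have hkS : k ∉ S := by rw [hmS]; tauto
  have hiZ : i ∉ Z0 := by simp [hZ0]
  have hkZ : k ∉ Z0 := by simp [hZ0]
  have hiF : i ∉ F := fun h => hiA (Finset.mem_inter.1 h).1
  have hkF : k ∉ F := fun h => hkA (Finset.mem_inter.1 h).1
  -- empty sites
  have z1 : V \ (insert k A ∪ insert k B) = insert i Z0 := by
    clear * - hZ0 hne hi hk hiA hkA hiB hkB
    ext t
    simp only [hZ0, Finset.mem_sdiff, Finset.mem_union, Finset.mem_insert, Finset.mem_singleton]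
    constructor
    · rintro ⟨h5, h6⟩
      by_cases hti : t = i
      · exact Or.inl hti
      · right
        tauto
    · rintro (rfl | ⟨⟨h5, h6⟩, h7⟩)
      · refine ⟨hi, ?_⟩
        tauto
      · refine ⟨h5, ?_⟩
        tauto
  have z2 : V \ (insert i A ∪ insert i B) = insert k Z0 := by
    clear * - hZ0 hne hi hk hiA hkA hiB hkB
    ext t
    simp only [hZ0, Finset.mem_sdiff, Finset.mem_union, Finset.mem_insert, Finset.mem_singleton]
    constructor
    · rintro ⟨h5, h6⟩
      by_cases hti : t = k
      · exact Or.inl hti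
      · right
        tauto
    · rintro (rfl | ⟨⟨h5, h6⟩, h7⟩)
      · refine ⟨hk, ?_⟩
        have : t ≠ i := fun e => hne e.symm
        tauto
      · refine ⟨h5, ?_⟩
        tauto
  have z3 : V \ (insert i (insert k A) ∪ B) = Z0 := by
    clear * - hZ0
    ext t
    simp only [hZ0, Finset.mem_sdiff, Finset.mem_union, Finset.mem_insert, Finset.mem_singleton]
    tauto
  have z4 : V \ (insert i A ∪ insert k B) = Z0 := by
    clear * - hZ0
    ext t
    simp only [hZ0, Finset.mem_sdiff, Finset.mem_union, Finset.mem_insert, Finset.mem_singleton]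
    tauto
  have z5 : V \ (insert k A ∪ insert i B) = Z0 := by
    clear * - hZ0
    ext t
    simp only [hZ0, Finset.mem_sdiff, Finset.mem_union, Finset.mem_insert, Finset.mem_singleton]
    tauto
  -- doubles
  have f1 : insert k A ∩ insert k B = insert k F := by
    clear * - hF hne hiA hkA hiB hkB
    ext t
    simp only [hF, Finset.mem_inter, Finset.mem_insert]
    tauto
  have f2 : insert i A ∩ insert i B = insert i F := by
    clear * - hF hne hiA hkA hiB hkB
    ext t
    simp only [hF, Finset.mem_inter, Finset.mem_insert]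
    tauto
  have f3 : insert i (insert k A) ∩ B = F := by
    clear * - hF hne hiA hkA hiB hkB
    ext t
    simp only [hF, Finset.mem_inter, Finset.mem_insert]
    constructor
    · rintro ⟨rfl | rfl | h5, h6⟩
      · exact absurd h6 hiB
      · exact absurd h6 hkB
      · exact ⟨h5, h6⟩
    · tauto
  have f4 : insert i A ∩ insert k B = F := by
    clear * - hF hne hiA hkA hiB hkB
    ext t
    simp only [hF, Finset.mem_inter, Finset.mem_insert]
    constructor
    · rintro ⟨rfl | h5, h6 | h6⟩
      · exact absurd h6 hne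
      · exact absurd h6 hiB
      · rw [h6] at h5; exact absurd h5 hkA
      · exact ⟨h5, h6⟩
    · tauto
  have f5 : insert k A ∩ insert i B = F := by
    clear * - hF hne hiA hkA hiB hkB
    ext t
    simp only [hF, Finset.mem_inter, Finset.mem_insert]
    constructor
    · rintro ⟨rfl | h5, h6 | h6⟩
      · exact absurd h6.symm hne
      · exact absurd h6 hkB
      · rw [h6] at h5; exact absurd h5 hiA
      · exact ⟨h5, h6⟩
    · tauto
  -- singles
  have s1 : symmDiff (insert k A) (insert k B) = S := by
    ext t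
    rw [hmS, Finset.mem_symmDiff]
    simp only [Finset.mem_insert]
    by_cases htk : t = k
    · subst htk; simp [hkA, hkB]
    · simp [htk]
  have s2 : symmDiff (insert i A) (insert i B) = S := by
    ext t
    rw [hmS, Finset.mem_symmDiff]
    simp only [Finset.mem_insert]
    by_cases htk : t = i
    · subst htk; simp [hiA, hiB]
    · simp [htk]
  have s3 : symmDiff (insert i (insert k A)) B = insert i (insert k S) := by
    ext t
    rw [Finset.mem_insert, Finset.mem_insert, hmS, Finset.mem_symmDiff]
    simp only [Finset.mem_insert]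
    by_cases hti : t = i
    · subst hti; simp [hiB]
    · by_cases htk : t = k
      · subst htk; simp [hkB]
      · simp [hti, htk]
  have s4 : symmDiff (insert i A) (insert k B) = insert i (insert k S) := by
    ext t
    rw [Finset.mem_insert, Finset.mem_insert, hmS, Finset.mem_symmDiff]
    simp only [Finset.mem_insert]
    by_cases hti : t = i
    · subst hti; simp [hiB, hne]
    · by_cases htk : t = k
      · subst htk; simp [hkA, hti]
      · simp [hti, htk]
  have s5 : symmDiff (insert k A) (insert i B) = insert i (insert k S) := by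
    ext t
    rw [Finset.mem_insert, Finset.mem_insert, hmS, Finset.mem_symmDiff]
    simp only [Finset.mem_insert]
    by_cases hti : t = i
    · subst hti; simp [hiA, hne]
    · by_cases htk : t = k
      · subst htk; simp [hkB, hti]
      · simp [hti, htk]
  have hS' : insert i (insert k S) ⊆ V := by
    apply vi
    apply vk
    intro t ht
    rw [hmS] at ht
    rcases ht with ht | ht
    · exact hAV ht.1
    · exact hBV ht.1
  have hZV : Z0 ⊆ V := Finset.sdiff_subset.trans Finset.sdiff_subset
  have hFV : F ⊆ V := Finset.inter_subset_left.trans hAV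
  have hZF : Disjoint Z0 F := by
    rw [Finset.disjoint_left]
    intro t ht ht'
    rw [hZ0, Finset.mem_sdiff, Finset.mem_union] at ht
    exact ht.2 (Or.inl (Finset.mem_inter.1 ht').1)
  have hZS : Disjoint Z0 (insert i (insert k S)) := by
    rw [Finset.disjoint_left]
    intro t ht ht'
    rw [Finset.mem_insert, Finset.mem_insert] at ht'
    rcases ht' with rfl | rfl | ht'
    · exact hiZ ht
    · exact hkZ ht
    · rw [hZ0, Finset.mem_sdiff, Finset.mem_union] at ht
      rw [hmS] at ht'
      rcases ht' with ht' | ht'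
      · exact ht.2 (Or.inl ht'.1)
      · exact ht.2 (Or.inr ht'.1)
  have hFS : Disjoint F (insert i (insert k S)) := by
    rw [Finset.disjoint_left]
    intro t ht ht'
    rw [Finset.mem_insert, Finset.mem_insert] at ht'
    rcases ht' with rfl | rfl | ht'
    · exact hiF ht
    · exact hkF ht
    · rw [hF, Finset.mem_inter] at ht
      rw [hmS] at ht'
      rcases ht' with ht' | ht'
      · exact ht'.2 ht.2
      · exact ht'.2 ht.1
  have q4 : p V v (insert i A) (insert k B) = Fs v Z0 F (insert i (insert k S)) (cyc (insert k C)) := by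
    rw [p_of ⟨vi hAV, vk hBV, by rw [d4]; exact Finset.insert_nonempty _ _⟩, z4, f4, s4, d4]
  have q5 : p V v (insert k A) (insert i B) = Fs v Z0 F (insert i (insert k S)) (cyc (insert i C)) := by
    rw [p_of ⟨vk hAV, vi hBV, by rw [d5]; exact Finset.insert_nonempty _ _⟩, z5, f5, s5, d5]
  rw [q4, q5]
  by_cases hCn : C.Nonempty
  · -- the cycles
    have hC2 : insert i (insert k C) ⊆ V := vi (vk (Finset.sdiff_subset.trans hBV))
    obtain ⟨l, hn, hmem, hc1, hc2, hc3, hc4, _⟩ := cyc_adj
      (C := insert i (insert k C)) (x := i) (y := k) (by simp) (by simp) hik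
      (fun z hz => hadj z (hC2 hz))
    have ei : (insert i (insert k C)).erase i = insert k C := by
      apply Finset.erase_insert
      simp [hne, hiC]
    have ek : (insert i (insert k C)).erase k = insert i C := by
      rw [Finset.insert_comm]
      apply Finset.erase_insert
      simp [hne.symm, hkC]
    have eik : ((insert i (insert k C)).erase i).erase k = C := by
      rw [ei]
      exact Finset.erase_insert hkC
    rw [eik] at hc4 hmem
    rw [ei] at hc2
    rw [ek] at hc3
    have q0 : p (V \ {i, k}) (ctr i k v) A B = Fs (ctr i k v) Z0 F S (cyc C) := by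
      rw [p_of ⟨hA, hB, hCn⟩]
    have q1 : p V v (insert k A) (insert k B) = Fs v (insert i Z0) (insert k F) S (cyc C) := by
      rw [p_of ⟨vk hAV, vk hBV, by rw [d1]; exact hCn⟩, z1, f1, s1, d1]
    have q2 : p V v (insert i A) (insert i B) = Fs v (insert k Z0) (insert i F) S (cyc C) := by
      rw [p_of ⟨vi hAV, vi hBV, by rw [d2]; exact hCn⟩, z2, f2, s2, d2]
    have q3 : p V v (insert i (insert k A)) B = Fs v Z0 F (insert i (insert k S)) (cyc C) := by
      rw [p_of ⟨vi (vk hAV), hBV, by rw [d3]; exact hCn⟩, z3, f3, s3, d3]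
    have hCS : C ⊆ S := by
      intro t ht
      rw [hmS]
      rw [hC, Finset.mem_sdiff] at ht
      exact Or.inr ht
    rw [q0, q1, q2, q3, Fs_ctr v hiS hkS hiZ hkZ hiF hkF hne (cyc C) (cyc_mem hCS)
      (cyc_fix hiC) (cyc_fix hkC), hc2, hc3]
    cases l with
    | nil =>
      exfalso
      obtain ⟨t, ht⟩ := hCn
      exact absurd ((hmem t).2 ht) (by simp)
    | cons z l =>
      rw [hc4]
      have h7 := h3.two hZV hFV hS' hZF hZS hFS hn (by
        intro t ht
        rw [List.mem_cons, List.mem_cons] at ht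
        rcases ht with rfl | rfl | ht
        · simp
        · simp
        · have := hCS ((hmem t).1 ht)
          exact Finset.mem_insert_of_mem (Finset.mem_insert_of_mem this))
      rw [h7]
      ring
  · -- `B ⊆ A`
    have hC0 : C = ∅ := Finset.not_nonempty_iff_eq_empty.1 hCn
    have o0 : p (V \ {i, k}) (ctr i k v) A B = 0 := p_of_not (fun h => hCn h.2.2)
    have o1 : p V v (insert k A) (insert k B) = 0 :=
      p_of_not (fun h => hCn (by rw [← d1]; exact h.2.2))
    have o2 : p V v (insert i A) (insert i B) = 0 :=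
      p_of_not (fun h => hCn (by rw [← d2]; exact h.2.2))
    have o3 : p V v (insert i (insert k A)) B = 0 :=
      p_of_not (fun h => hCn (by rw [← d3]; exact h.2.2))
    have c1 : ∀ t : ι, cyc ({t} : Finset ι) = 1 := by
      intro t
      unfold cyc srt
      rw [Finset.sort_singleton, List.formPerm_singleton, inv_one]
    rw [o0, o1, o2, o3, hC0]
    change 0 = 0 + 0 + 0 + Fs v Z0 F (insert i (insert k S)) (cyc {k})
      + Fs v Z0 F (insert i (insert k S)) (cyc {i})
    rw [c1, c1, zero_add, zero_add, zero_add, CharTwo.add_self_eq_zero]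

end MP_d81877_alT2

namespace D81877M

open Finset Function MP_d81877_alI D81877ZF

variable {ι : Type*} [LinearOrder ι] {K : Type*} [Field K] [CharP K 2]

/-- **T2b**: the map `p` intertwines the exchange of two adjacent sites with the twisted
exchange. -/
theorem T2b {V : Finset ι} {b : ℕ} {v : WW ι K} (hv : Dm V b v) {x y : ι} (h : Adj V x y) :
    p V (swW x y v) = tws x y (p V v) := by
  obtain ⟨hx, hy, hxy, hadj⟩ := h
  rw [MP_d81877_alT2.p_eq, MP_d81877_alT2.p_eq]
  funext A B
  have h1 := MP_d81877_alT2.p_swap (MP_d81877_alT2.threeT hv) hx hy hxy hadj A B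
  have h2 : MP_d81877_alT2.act (Equiv.swap x y) v = swW x y v := rfl
  rw [h2] at h1
  rw [h1]
  unfold tws
  rw [Module.End.mul_apply, swZ_apply, LinearMap.add_apply, Module.End.one_apply, Pi.add_apply,
    Pi.add_apply]
  congr 1
  simp only [Module.End.mul_apply, f_apply, d_apply]
  set s := Equiv.swap x y with hs
  have mx : ∀ P : Finset ι, x ∈ P.image s ↔ y ∈ P := by
    intro P
    rw [Finset.mem_image]
    constructor
    · rintro ⟨t, ht, hst⟩
      have : t = y := by
        have h3 := congrArg s hst
        rw [hs, Equiv.swap_apply_self, Equiv.swap_apply_left] at h3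
        exact h3
      rw [← this]; exact ht
    · intro hP
      exact ⟨y, hP, Equiv.swap_apply_right _ _⟩
  have my : ∀ P : Finset ι, y ∈ P.image s ↔ x ∈ P := by
    intro P
    rw [Finset.mem_image]
    constructor
    · rintro ⟨t, ht, hst⟩
      have : t = x := by
        have h3 := congrArg s hst
        rw [hs, Equiv.swap_apply_self, Equiv.swap_apply_right] at h3
        exact h3
      rw [← this]; exact ht
    · intro hP
      exact ⟨x, hP, Equiv.swap_apply_left _ _⟩
  by_cases hc : x ∈ B ∧ y ∈ B ∧ x ∉ A ∧ y ∉ A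
  · rw [if_pos hc]
    obtain ⟨hxB, hyB, hxA, hyA⟩ := hc
    have hA : A.image s = A := MP_d81877_alT2.image_swap_of_notMem hxA hyA
    have hB : B.image s = B := MP_d81877_alT2.image_swap_eq hxB hyB
    rw [hA, hB, if_pos hxB, if_neg hxA, if_pos (Finset.mem_erase.2 ⟨hxy.ne', hyB⟩), if_neg,
      Finset.insert_comm]
    rw [Finset.mem_insert]
    push Not
    exact ⟨hxy.ne', hyA⟩
  · rw [if_neg hc]
    split_ifs with g1 g2 g3 g4
    · rfl
    · rfl
    · exfalso
      apply hc
      rw [mx] at g1 g2
      rw [Finset.mem_erase, my] at g3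
      rw [Finset.mem_insert, my] at g4
      push Not at g4
      exact ⟨g3.2, g1, g4.2, g2⟩
    · rfl
    · rfl

/-- **T2a**: contraction of two adjacent sites. -/
theorem T2a {V : Finset ι} {b : ℕ} {v : WW ι K} (hv : Dm V b v) {i k : ι} (h : Adj V i k)
    {A B : Finset ι} (hA : A ⊆ V \ {i, k}) (hB : B ⊆ V \ {i, k}) :
    p (V \ {i, k}) (ctr i k v) A B
      = p V v (insert k A) (insert k B) + p V v (insert i A) (insert i B)
        + p V v (insert i (insert k A)) B + p V v (insert i A) (insert k B)
        + p V v (insert k A) (insert i B) := by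
  rw [MP_d81877_alT2.p_eq, MP_d81877_alT2.p_eq]
  exact MP_d81877_alT2.p_ctr (MP_d81877_alT2.threeT hv) h.1 h.2.1 h.2.2.1 h.2.2.2 hA hB

end D81877M
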